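import Pool.Agent.W516.KCM.Defs
import Pool.Agent.W440.DK.SPAN

/-! Project KCM, part EXL: the commutator with two Clifford multiplications, lifts of skew
endomorphisms. -/

set_option autoImplicit false
set_option maxHeartbeats 4000000

namespace Pool.Agent.W85.KCM

open Module Pool.Agent.W516.K3 Pool.Agent.W516.KU Pool.Agent.W516.KCM

section

variable {F T H : Type} [Field F] [AddCommGroup T] [Module F T] [AddCommGroup H] [Module F H]
  {b : T →ₗ[F] T →ₗ[F] F} (γ : T →ₗ[F] Module.End F H)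

theorem sp_lift (hγ : ∀ u v, γ u * γ v + γ v * γ u = (2 * b u v) • (1 : Module.End F H))
    (u v t : T) :
    sp γ u v * γ t - γ t * sp γ u v = γ ((4 * b v t) • u - (4 * b u t) • v) := by
  unfold sp
  have e1 : γ v * γ t = (2 * b v t) • (1 : Module.End F H) - γ t * γ v := by
    rw [← hγ v t]; abel
  have e2 : γ u * γ t = (2 * b u t) • (1 : Module.End F H) - γ t * γ u := by
    rw [← hγ u t]; abel
  have e3 : γ u * γ v * γ t = (2 * b v t) • γ u - (2 * b u t) • γ v + γ t * (γ u * γ v) := by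
    rw [mul_assoc, e1, mul_sub, ← mul_assoc, e2, sub_mul]
    simp only [mul_smul_comm, mul_one, smul_mul_assoc, one_mul, mul_assoc]
    abel
  have e4 : γ v * γ u * γ t = (2 * b u t) • γ v - (2 * b v t) • γ u + γ t * (γ v * γ u) := by
    rw [mul_assoc, e2, mul_sub, ← mul_assoc, e1, sub_mul]
    simp only [mul_smul_comm, mul_one, smul_mul_assoc, one_mul, mul_assoc]
    abel
  rw [sub_mul, e3, e4, map_sub, map_smul, map_smul, mul_sub]
  have e5 : 4 * b v t = 2 * b v t + 2 * b v t := by ring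
  have e6 : 4 * b u t = 2 * b u t + 2 * b u t := by ring
  rw [e5, e6, add_smul, add_smul]
  abel

theorem sp_isLift (hγ : ∀ u v, γ u * γ v + γ v * γ u = (2 * b u v) • (1 : Module.End F H))
    (u v : T) : IsLift γ (sp γ u v) ((4 : F) • wdg b u v) := by
  intro t
  rw [sp_lift γ hγ]
  congr 1
  unfold wdg
  simp only [LinearMap.smul_apply, LinearMap.sub_apply, LinearMap.smulRight_apply, smul_sub,
    smul_smul]

theorem isLift_smul {Z : Module.End F H} {x : Module.End F T} (h : IsLift γ Z x) (c : F) :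
    IsLift γ (c • Z) (c • x) := by
  intro t
  rw [smul_mul_assoc, mul_smul_comm, ← smul_sub, h t, LinearMap.smul_apply, map_smul]

theorem isLift_add {Z Z' : Module.End F H} {x x' : Module.End F T} (h : IsLift γ Z x)
    (h' : IsLift γ Z' x') : IsLift γ (Z + Z') (x + x') := by
  intro t
  rw [add_mul, mul_add, LinearMap.add_apply, map_add, ← h t, ← h' t]
  abel

theorem isLift_zero : IsLift γ 0 0 := by
  intro t
  rw [zero_mul, mul_zero, LinearMap.zero_apply, map_zero, sub_zero]

end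

theorem T_EXL : Pool.Agent.W516.KCM.S_EXL := by
  intro F T H _ _ _ _ _ _ _ b γ hs hn hγ
  refine ⟨sp_isLift γ hγ, ?_⟩
  intro x hx
  have h1 := Pool.Agent.W440.DK.T_SPAN F T b hs hn x hx
  have h4 : (4 : F) ≠ 0 := by norm_num
  clear hx
  induction h1 using Submodule.span_induction with
  | mem y hy =>
    obtain ⟨u, v, rfl⟩ := hy
    refine ⟨(4 : F)⁻¹ • sp γ u v, Submodule.smul_mem _ _ (Submodule.subset_span ⟨u, v, rfl⟩), ?_⟩
    have h2 := isLift_smul γ (sp_isLift γ hγ u v) (4 : F)⁻¹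
    rw [smul_smul, inv_mul_cancel₀ h4, one_smul] at h2
    exact h2
  | zero => exact ⟨0, Submodule.zero_mem _, isLift_zero γ⟩
  | add y z _ _ hy hz =>
    obtain ⟨Z, hZ, hZl⟩ := hy
    obtain ⟨Z', hZ', hZl'⟩ := hz
    exact ⟨Z + Z', Submodule.add_mem _ hZ hZ', isLift_add γ hZl hZl'⟩
  | smul c y _ hy =>
    obtain ⟨Z, hZ, hZl⟩ := hy
    exact ⟨c • Z, Submodule.smul_mem _ _ hZ, isLift_smul γ hZl c⟩

end Pool.Agent.W85.KCM
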